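import Mathlib

/-!
Sequential composition of two Mathlib `Turing.FinTM2` machines with Boolean input and output
alphabets, with an explicit bound on the number of steps.
-/

namespace Pool.Agent.Lib.Helper33

open Turing Function

section lift

variable {K₁ K Λ₁ Λ σ₁ σ : Type} [DecidableEq K₁] [DecidableEq K] {Γ : K → Type}

/-- a statement of a small machine, run inside a big machine -/
def liftStmt (ι : K₁ → K) (jl : Λ₁ → Λ) (nx : Option Λ) (get : σ → σ₁) (put : σ₁ → σ) :
    TM2.Stmt (fun k => Γ (ι k)) Λ₁ σ₁ → TM2.Stmt Γ Λ σ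
  | .push k f q => .push (ι k) (fun s => f (get s)) (liftStmt ι jl nx get put q)
  | .peek k f q => .peek (ι k) (fun s o => put (f (get s) o)) (liftStmt ι jl nx get put q)
  | .pop k f q => .pop (ι k) (fun s o => put (f (get s) o)) (liftStmt ι jl nx get put q)
  | .load a q => .load (fun s => put (a (get s))) (liftStmt ι jl nx get put q)
  | .branch f q₁ q₂ =>
      .branch (fun s => f (get s)) (liftStmt ι jl nx get put q₁) (liftStmt ι jl nx get put q₂)
  | .goto f => .goto (fun s => jl (f (get s)))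
  | .halt => nx.elim .halt (fun l => .goto (fun _ => l))

/-- the simulation relation -/
def Sim (ι : K₁ → K) (jl : Λ₁ → Λ) (nx : Option Λ) (put : σ₁ → σ) (R : ∀ k, List (Γ k))
    (c : TM2.Cfg (fun k => Γ (ι k)) Λ₁ σ₁) (c' : TM2.Cfg Γ Λ σ) : Prop :=
  c'.l = c.l.elim nx (fun l => some (jl l)) ∧ c'.var = put c.var ∧
    (∀ k, c'.stk (ι k) = c.stk k) ∧ ∀ k', (∀ k, ι k ≠ k') → c'.stk k' = R k'

theorem update_sim {ι : K₁ → K} (hι : Injective ι) {S : ∀ k, List (Γ (ι k))}
    {S' : ∀ k, List (Γ k)} (h : ∀ k, S' (ι k) = S k) (k : K₁) (x : List (Γ (ι k))) (j : K₁) :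
    update S' (ι k) x (ι j) = update S k x j := by
  by_cases hj : j = k
  · subst hj; simp
  · rw [update_of_ne (hι.ne hj), update_of_ne hj, h]

theorem stepAux_lift {ι : K₁ → K} (hι : Injective ι) (jl : Λ₁ → Λ) (nx : Option Λ)
    {get : σ → σ₁} {put : σ₁ → σ} (hgp : ∀ v, get (put v) = v) (R : ∀ k, List (Γ k))
    (q : TM2.Stmt (fun k => Γ (ι k)) Λ₁ σ₁) :
    ∀ (v : σ₁) (S : ∀ k, List (Γ (ι k))) (S' : ∀ k, List (Γ k)),
      (∀ k, S' (ι k) = S k) → (∀ k', (∀ k, ι k ≠ k') → S' k' = R k') →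
      Sim ι jl nx put R (TM2.stepAux q v S) (TM2.stepAux (liftStmt ι jl nx get put q) (put v) S') := by
  induction q with
  | push k f q ih =>
    intro v S S' h1 h2
    simp only [liftStmt, TM2.stepAux, hgp, h1]
    refine ih _ _ _ (update_sim hι h1 k _) (fun k' hk' => ?_)
    rw [update_of_ne (hk' k).symm, h2 k' hk']
  | peek k f q ih =>
    intro v S S' h1 h2
    simp only [liftStmt, TM2.stepAux, hgp, h1]
    exact ih _ _ _ h1 h2
  | pop k f q ih =>
    intro v S S' h1 h2
    simp only [liftStmt, TM2.stepAux, hgp, h1]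
    refine ih _ _ _ (update_sim hι h1 k _) (fun k' hk' => ?_)
    rw [update_of_ne (hk' k).symm, h2 k' hk']
  | load a q ih =>
    intro v S S' h1 h2
    simp only [liftStmt, TM2.stepAux, hgp]
    exact ih _ _ _ h1 h2
  | branch f q₁ q₂ ih₁ ih₂ =>
    intro v S S' h1 h2
    simp only [liftStmt, TM2.stepAux, hgp]
    cases f v
    · exact ih₂ _ _ _ h1 h2
    · exact ih₁ _ _ _ h1 h2
  | goto f =>
    intro v S S' h1 h2
    simp only [liftStmt, TM2.stepAux, hgp]
    exact ⟨rfl, rfl, h1, h2⟩
  | halt =>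
    intro v S S' h1 h2
    cases nx <;> exact ⟨rfl, rfl, h1, h2⟩

theorem iterate_none {C : Type} (st : C → Option C) (m : ℕ) :
    (flip bind st)^[m] none = none := by
  induction m with
  | zero => rfl
  | succ m ih => rw [iterate_succ_apply]; exact ih

theorem iterate_lift {ι : K₁ → K} (hι : Injective ι) (jl : Λ₁ → Λ) (nx : Option Λ)
    {get : σ → σ₁} {put : σ₁ → σ} (hgp : ∀ v, get (put v) = v) (R : ∀ k, List (Γ k))
    (M₁ : Λ₁ → TM2.Stmt (fun k => Γ (ι k)) Λ₁ σ₁) (M : Λ → TM2.Stmt Γ Λ σ)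
    (hM : ∀ l, M (jl l) = liftStmt ι jl nx get put (M₁ l)) (m : ℕ) :
    ∀ (c d : TM2.Cfg (fun k => Γ (ι k)) Λ₁ σ₁) (c' : TM2.Cfg Γ Λ σ), Sim ι jl nx put R c c' →
      (flip bind (TM2.step M₁))^[m] (some c) = some d →
      ∃ d', (flip bind (TM2.step M))^[m] (some c') = some d' ∧ Sim ι jl nx put R d d' := by
  induction m with
  | zero =>
    intro c d c' hs h
    obtain rfl : c = d := Option.some.inj h
    exact ⟨c', rfl, hs⟩
  | succ m ih =>
    rintro ⟨l, v, S⟩ d ⟨l', v', S'⟩ ⟨h1, h2, h3, h4⟩ h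
    rw [iterate_succ_apply] at h ⊢
    cases l with
    | none =>
      have : (flip bind (TM2.step M₁)) (some (⟨none, v, S⟩ : TM2.Cfg _ Λ₁ σ₁)) = none := rfl
      rw [this, iterate_none] at h
      cases h
    | some l =>
      simp only [Option.elim] at h1 h2 h3 h4
      subst h1 h2
      have e1 : (flip bind (TM2.step M₁)) (some (⟨some l, v, S⟩ : TM2.Cfg _ Λ₁ σ₁))
          = some (TM2.stepAux (M₁ l) v S) := rfl
      have e2 : (flip bind (TM2.step M)) (some (⟨some (jl l), put v, S'⟩ : TM2.Cfg Γ Λ σ))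
          = some (TM2.stepAux (M (jl l)) (put v) S') := rfl
      rw [e1] at h
      rw [e2, hM]
      exact ih _ _ _ (stepAux_lift hι jl nx hgp R (M₁ l) v S S' h3 h4) h

end lift

section copy

variable {K Λ σ : Type} [DecidableEq K] {Γ : K → Type}

/-- move stack `a` to stack `b`, reversing it, then jump -/
def copyStmt (a b : K) (f : Γ a → Bool) (g : Bool → Γ b) (v : σ) (self nx : Λ) :
    TM2.Stmt Γ Λ (σ × Option Bool) :=
  .pop a (fun _ o => (v, o.map f))
    (.branch (fun s => s.2.isSome)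
      (.push b (fun s => g (s.2.getD false)) (.load (fun _ => (v, none)) (.goto fun _ => self)))
      (.load (fun _ => (v, none)) (.goto fun _ => nx)))

theorem iterate_copy {a b : K} (hab : a ≠ b) (f : Γ a → Bool) (g : Bool → Γ b) (v : σ)
    (self nx : Λ) (M : Λ → TM2.Stmt Γ Λ (σ × Option Bool))
    (hM : M self = copyStmt a b f g v self nx) (l : List (Γ a)) :
    ∀ (S : ∀ k, List (Γ k)), S a = l →
      (flip bind (TM2.step M))^[l.length + 1] (some ⟨some self, (v, none), S⟩) =
        some ⟨some nx, (v, none),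
          update (update S a []) b ((l.map (fun x => g (f x))).reverse ++ S b)⟩ := by
  induction l with
  | nil =>
    intro S hS
    have e : (flip bind (TM2.step M))^[([] : List (Γ a)).length + 1]
        (some ⟨some self, (v, none), S⟩) = some (TM2.stepAux (M self) (v, none) S) := rfl
    rw [e, hM]
    simp only [copyStmt, TM2.stepAux, hS, List.head?_nil, Option.map_none, Option.isSome_none,
      cond_false, List.tail_nil, List.map_nil, List.reverse_nil, List.nil_append]
    congr 2
    funext k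
    by_cases hk : k = b
    · subst hk
      rw [update_self, update_of_ne hab.symm]
    · rw [update_of_ne hk]
  | cons x l ih =>
    intro S hS
    rw [List.length_cons, iterate_succ_apply]
    have e : (flip bind (TM2.step M)) (some (⟨some self, (v, none), S⟩ : TM2.Cfg Γ Λ _))
        = some (TM2.stepAux (M self) (v, none) S) := rfl
    rw [e, hM]
    simp only [copyStmt, TM2.stepAux, hS, List.head?_cons, Option.map_some, Option.isSome_some,
      cond_true, List.tail_cons, Option.getD_some]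
    rw [ih _ (by rw [update_of_ne hab, update_self])]
    congr 2
    funext k
    by_cases hk : k = b
    · subst hk
      simp [update_of_ne hab.symm]
    · rw [update_of_ne hk, update_of_ne hk]
      by_cases hk' : k = a
      · subst hk'; simp
      · rw [update_of_ne hk', update_of_ne hk', update_of_ne hk, update_of_ne hk']

end copy

/-- a machine with Boolean input and output alphabets and finite stack alphabets -/
structure BTM where
  tm : FinTM2
  e₀ : tm.Γ tm.k₀ ≃ Bool
  e₁ : tm.Γ tm.k₁ ≃ Bool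
  fin : ∀ s, Finite (tm.Γ s)

/-- the machine maps `x` to `y` within `t` steps -/
def BTM.Out (M : BTM) (x y : List Bool) (t : ℕ) : Prop :=
  Nonempty (TM2OutputsInTime M.tm (x.map M.e₀.symm) (some (y.map M.e₁.symm)) t)

theorem BTM.Out.mono {M : BTM} {x y : List Bool} {t t' : ℕ} (h : M.Out x y t) (ht : t ≤ t') :
    M.Out x y t' := by
  obtain ⟨⟨h1, h2⟩⟩ := h
  exact ⟨⟨h1, h2.trans ht⟩⟩

section comp

variable (M₁ M₂ : BTM)

/-- stack alphabets of the composite machine -/
def compΓ : M₁.tm.K ⊕ (M₂.tm.K ⊕ Unit) → Type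
  | .inl k => M₁.tm.Γ k
  | .inr (.inl k) => M₂.tm.Γ k
  | .inr (.inr _) => Bool

/-- program of the composite machine -/
def compProg : M₁.tm.Λ ⊕ (M₂.tm.Λ ⊕ Bool) →
    TM2.Stmt (compΓ M₁ M₂) (M₁.tm.Λ ⊕ (M₂.tm.Λ ⊕ Bool)) ((M₁.tm.σ × M₂.tm.σ) × Option Bool)
  | .inl l => liftStmt (Γ := compΓ M₁ M₂) Sum.inl Sum.inl (some (.inr (.inr false)))
      (fun s => s.1.1) (fun v => ((v, M₂.tm.initialState), none)) (M₁.tm.m l)
  | .inr (.inl l) => liftStmt (Γ := compΓ M₁ M₂) (fun k => Sum.inr (Sum.inl k))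
      (fun l => Sum.inr (Sum.inl l)) none
      (fun s => s.1.2) (fun v => ((M₁.tm.initialState, v), none)) (M₂.tm.m l)
  | .inr (.inr false) => copyStmt (Γ := compΓ M₁ M₂) (.inl M₁.tm.k₁) (.inr (.inr ()))
      M₁.e₁ id (M₁.tm.initialState, M₂.tm.initialState) (.inr (.inr false)) (.inr (.inr true))
  | .inr (.inr true) => copyStmt (Γ := compΓ M₁ M₂) (.inr (.inr ())) (.inr (.inl M₂.tm.k₀))
      id M₂.e₀.symm (M₁.tm.initialState, M₂.tm.initialState) (.inr (.inr true))
      (.inr (.inl M₂.tm.main))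

/-- the composite machine -/
def compTM : FinTM2 where
  K := M₁.tm.K ⊕ (M₂.tm.K ⊕ Unit)
  kDecidableEq := inferInstance
  kFin := letI := M₁.tm.kFin; letI := M₂.tm.kFin; inferInstance
  k₀ := .inl M₁.tm.k₀
  k₁ := .inr (.inl M₂.tm.k₁)
  Γ := compΓ M₁ M₂
  Λ := M₁.tm.Λ ⊕ (M₂.tm.Λ ⊕ Bool)
  main := .inl M₁.tm.main
  ΛFin := letI := M₁.tm.ΛFin; letI := M₂.tm.ΛFin; inferInstance
  σ := (M₁.tm.σ × M₂.tm.σ) × Option Bool
  initialState := ((M₁.tm.initialState, M₂.tm.initialState), none)
  σFin := letI := M₁.tm.σFin; letI := M₂.tm.σFin; inferInstance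
  Γk₀Fin := M₁.tm.Γk₀Fin
  m := compProg M₁ M₂

/-- the composite machine with its alphabets -/
def BTM.comp : BTM where
  tm := compTM M₁ M₂
  e₀ := M₁.e₀
  e₁ := M₂.e₁
  fin := fun s => match s with
    | .inl k => M₁.fin k
    | .inr (.inl k) => M₂.fin k
    | .inr (.inr _) => inferInstanceAs (Finite Bool)

theorem initList_stk_self (tm : FinTM2) (s : List (tm.Γ tm.k₀)) :
    (initList tm s).stk tm.k₀ = s := by
  simp [initList]

theorem initList_stk_ne (tm : FinTM2) (s : List (tm.Γ tm.k₀)) {k : tm.K} (h : k ≠ tm.k₀) :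
    (initList tm s).stk k = [] := by
  simp [initList, h]

theorem haltList_stk_self (tm : FinTM2) (s : List (tm.Γ tm.k₁)) :
    (haltList tm s).stk tm.k₁ = s := by
  simp [haltList]

theorem haltList_stk_ne (tm : FinTM2) (s : List (tm.Γ tm.k₁)) {k : tm.K} (h : k ≠ tm.k₁) :
    (haltList tm s).stk k = [] := by
  simp [haltList, h]

theorem BTM.Out.comp {M₁ M₂ : BTM} {x y z : List Bool} {t₁ t₂ : ℕ} (h₁ : M₁.Out x y t₁)
    (h₂ : M₂.Out y z t₂) : (M₁.comp M₂).Out x z (t₁ + t₂ + 2 * y.length + 2) := by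
  obtain ⟨⟨⟨m₁, h₁⟩, hm₁⟩⟩ := h₁
  obtain ⟨⟨⟨m₂, h₂⟩, hm₂⟩⟩ := h₂
  -- phase 1
  obtain ⟨⟨l1, v1, S1⟩, p1, a1, a2, a3, a4⟩ := iterate_lift (Γ := compΓ M₁ M₂) (ι := Sum.inl)
    Sum.inl_injective Sum.inl (some (.inr (.inr false)))
    (get := fun s : (M₁.tm.σ × M₂.tm.σ) × Option Bool => s.1.1)
    (put := fun v => ((v, M₂.tm.initialState), none)) (fun _ => rfl) (fun _ => [])
    M₁.tm.m (compProg M₁ M₂) (fun _ => rfl) m₁ (initList M₁.tm (x.map M₁.e₀.symm))
    (haltList M₁.tm (y.map M₁.e₁.symm)) (initList (compTM M₁ M₂) (x.map M₁.e₀.symm))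
    ⟨rfl, rfl, fun k => by
      by_cases hk : k = M₁.tm.k₀
      · subst hk
        rw [initList_stk_self]
        exact initList_stk_self (compTM M₁ M₂) _
      · rw [initList_stk_ne _ _ hk]
        exact initList_stk_ne (compTM M₁ M₂) _ (fun h => hk (Sum.inl_injective h)),
      fun k' hk' => initList_stk_ne (compTM M₁ M₂) _ (fun h => hk' _ h.symm)⟩ h₁
  simp only at a1 a2 a3 a4
  have a1' : l1 = some (.inr (.inr false)) := a1
  have a2' : v1 = ((M₁.tm.initialState, M₂.tm.initialState), none) := a2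
  subst a1' a2'
  -- phase 2
  have p2 := iterate_copy (Γ := compΓ M₁ M₂) (a := .inl M₁.tm.k₁) (b := .inr (.inr ()))
    (by simp) M₁.e₁ id (M₁.tm.initialState, M₂.tm.initialState) (.inr (.inr false))
    (.inr (.inr true)) (compProg M₁ M₂) rfl (y.map M₁.e₁.symm) S1
    ((a3 _).trans (haltList_stk_self _ _))
  have e2 : @HAppend.hAppend (List Bool) (List Bool) (List Bool) _
      ((y.map M₁.e₁.symm).map (fun x => id (M₁.e₁ x))).reverse (S1 (.inr (.inr ())))
      = y.reverse := by
    rw [a4 _ (by simp)]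
    simp [Function.comp_def]
    rfl
  have p2' : (flip bind (TM2.step (compProg M₁ M₂)))^[(y.map M₁.e₁.symm).length + 1]
      (some ⟨some (.inr (.inr false)), ((M₁.tm.initialState, M₂.tm.initialState), none), S1⟩) =
      some ⟨some (.inr (.inr true)), ((M₁.tm.initialState, M₂.tm.initialState), none),
        update (update S1 (.inl M₁.tm.k₁) []) (.inr (.inr ())) y.reverse⟩ := by
    rw [← e2]; exact p2
  -- phase 3
  have p3 := iterate_copy (Γ := compΓ M₁ M₂) (a := .inr (.inr ())) (b := .inr (.inl M₂.tm.k₀))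
    (by simp) id M₂.e₀.symm (M₁.tm.initialState, M₂.tm.initialState) (.inr (.inr true))
    (.inr (.inl M₂.tm.main)) (compProg M₁ M₂) rfl y.reverse
    (update (update S1 (.inl M₁.tm.k₁) []) (.inr (.inr ())) y.reverse) (by rw [update_self])
  -- phase 4
  obtain ⟨⟨l4, v4, S4⟩, p4, b1, b2, b3, b4⟩ := iterate_lift (Γ := compΓ M₁ M₂)
    (ι := fun k => Sum.inr (Sum.inl k))
    (fun _ _ h => Sum.inl_injective (Sum.inr_injective h)) (fun l => Sum.inr (Sum.inl l)) none
    (get := fun s : (M₁.tm.σ × M₂.tm.σ) × Option Bool => s.1.2)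
    (put := fun v => ((M₁.tm.initialState, v), none)) (fun _ => rfl) (fun _ => [])
    M₂.tm.m (compProg M₁ M₂) (fun _ => rfl) m₂ (initList M₂.tm (y.map M₂.e₀.symm))
    (haltList M₂.tm (z.map M₂.e₁.symm))
    ⟨some (.inr (.inl M₂.tm.main)), ((M₁.tm.initialState, M₂.tm.initialState), none),
      update (update (update (update S1 (.inl M₁.tm.k₁) []) (.inr (.inr ())) y.reverse)
        (.inr (.inr ())) []) (.inr (.inl M₂.tm.k₀))
        (@HAppend.hAppend (List (M₂.tm.Γ M₂.tm.k₀)) (List (M₂.tm.Γ M₂.tm.k₀))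
          (List (M₂.tm.Γ M₂.tm.k₀)) _ (y.reverse.map (fun x => M₂.e₀.symm (id x))).reverse
          ((update (update S1 (.inl M₁.tm.k₁) []) (.inr (.inr ())) y.reverse)
            (.inr (.inl M₂.tm.k₀))))⟩
    ⟨rfl, rfl, fun k => by
      dsimp only
      by_cases hk : k = M₂.tm.k₀
      · subst hk
        rw [initList_stk_self, update_self, update_of_ne (by simp), update_of_ne (by simp),
          a4 _ (by simp)]
        simp only [id, List.map_reverse, List.reverse_reverse]
        exact List.append_nil _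
      · rw [initList_stk_ne _ _ hk, update_of_ne (by simpa using hk), update_of_ne (by simp),
          update_of_ne (by simp), update_of_ne (by simp), a4 _ (by simp)]
        rfl,
      fun k' hk' => by
        dsimp only
        rw [update_of_ne (hk' _).symm]
        rcases k' with k | k | ⟨⟩
        · rw [update_of_ne (by simp), update_of_ne (by simp)]
          by_cases hk : k = M₁.tm.k₁
          · subst hk; rw [update_self]
          · rw [update_of_ne (by simpa using hk), a3, haltList_stk_ne _ _ hk]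
            rfl
        · exact absurd rfl (hk' k)
        · rw [update_self]⟩ h₂
  simp only at b1 b2 b3 b4
  have b1' : l4 = none := b1
  have b2' : v4 = ((M₁.tm.initialState, M₂.tm.initialState), none) := b2
  subst b1' b2'
  have e4 : S4 = (haltList (compTM M₁ M₂) (z.map M₂.e₁.symm)).stk := by
    funext k
    rcases k with k | k | u
    · rw [b4 _ (by simp)]
      exact (haltList_stk_ne (compTM M₁ M₂) _ (k := Sum.inl k) (by simp [compTM])).symm
    · rw [b3]
      by_cases hk : k = M₂.tm.k₁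
      · subst hk
        rw [haltList_stk_self]
        exact (haltList_stk_self (compTM M₁ M₂) _).symm
      · rw [haltList_stk_ne _ _ hk]
        exact (haltList_stk_ne (compTM M₁ M₂) _
          (fun h => hk (Sum.inl_injective (Sum.inr_injective h)))).symm
    · rw [b4 _ (by simp)]
      exact (haltList_stk_ne (compTM M₁ M₂) _ (k := Sum.inr (Sum.inr u)) (by simp [compTM])).symm
  subst e4
  refine ⟨⟨⟨m₂ + ((y.reverse.length + 1) + (((y.map M₁.e₁.symm).length + 1) + m₁)), ?_⟩, ?_⟩⟩
  · have q : (flip bind (TM2.step (compProg M₁ M₂)))^[m₂ + ((y.reverse.length + 1) +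
        (((y.map M₁.e₁.symm).length + 1) + m₁))]
        (some (initList (compTM M₁ M₂) (x.map M₁.e₀.symm))) =
        some (haltList (compTM M₁ M₂) (z.map M₂.e₁.symm)) := by
      rw [iterate_add_apply _ m₂, iterate_add_apply _ (y.reverse.length + 1),
        iterate_add_apply _ ((y.map M₁.e₁.symm).length + 1)]
      have r2 := (congrArg ((flip bind (TM2.step (compProg M₁ M₂)))^[(y.map M₁.e₁.symm).length + 1])
        p1).trans p2'
      have r3 := (congrArg ((flip bind (TM2.step (compProg M₁ M₂)))^[y.reverse.length + 1])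
        r2).trans p3
      exact (congrArg ((flip bind (TM2.step (compProg M₁ M₂)))^[m₂]) r3).trans p4
    exact q
  · simp only [List.length_reverse, List.length_map] at hm₁ hm₂ ⊢
    omega

end comp

end Pool.Agent.Lib.Helper33
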