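import Pool.Agent.Lib.Helper47.PTMore
import Pool.Agent.Lib.Helper33.TMComp

/-!
Stack programs whose running time is polynomial in an arbitrary budget `s`
(used for fixed-parameter running times), with unary expansion of binary numbers.
-/

namespace Pool.Agent.Lib.Helper33

open Pool.Agent.Lib.Helper47 Pool.Agent.Lib.Helper47.Enc

/-- `x a ↦ y a` is computed by one stack program in time polynomial in `s a` -/
def RT {α β γ : Type} [Enc β] [Enc γ] (s : α → ℕ) (x : α → β) (y : α → γ) : Prop :=
  ∃ (P : Prog) (n : α → ℕ), PB s n ∧ ∀ a, Comp P (toT (x a)) (toT (y a)) (n a)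

variable {α β γ δ : Type} [Enc β] [Enc γ] [Enc δ] {s : α → ℕ}

theorem RT.size_le {x : α → β} {y : α → γ} (h : RT s x y) (hx : PB s fun a => size (x a)) :
    PB s fun a => size (y a) := by
  obtain ⟨P, n, hn, h⟩ := h
  exact (hx.add hn).mono (fun a => (h a).size_le)

theorem RT.trans {x : α → β} {y : α → γ} {z : α → δ} (h1 : RT s x y) (h2 : RT s y z) :
    RT s x z := by
  obtain ⟨P, m, hm, h1⟩ := h1
  obtain ⟨Q, n, hn, h2⟩ := h2
  exact ⟨_, _, hm.add hn, fun a => (h1 a).seq (h2 a)⟩

theorem RT.of_PT {f : β → γ} (hf : PT f) {x : α → β} (hx : PB s fun a => size (x a)) :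
    RT s x (fun a => f (x a)) := by
  obtain ⟨P, p, h⟩ := hf
  exact ⟨P, fun a => p.eval (size (x a)), hx.eval p, fun a => h (x a)⟩

theorem RT.of_eq {x : α → β} {y z : α → γ} (h : RT s x y) (e : ∀ a, y a = z a) : RT s x z :=
  (funext e : y = z) ▸ h

theorem RT.whileN {σ : Type} [Enc σ] {step : σ → σ} {go : σ → Bool} {start : α → σ}
    (hstep : PT step) (hgo : PT go) (N B : α → ℕ) (hN : PB s N) (hB : PB s B)
    (h1 : ∀ a, ∀ i < N a, go (step^[i] (start a)) = true)
    (h2 : ∀ a, go (step^[N a] (start a)) = false)
    (hsz : ∀ a, ∀ i ≤ N a, size (step^[i] (start a)) ≤ B a) :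
    RT s start (fun a => step^[N a] (start a)) := by
  have hs : PT (fun t => (go (step t), step t)) := PT.prodMk (PT.comp hgo hstep) hstep
  have h0 : RT s start (fun a => (go (start a), start a)) :=
    RT.of_PT (f := fun t => (go t, t)) (PT.prodMk hgo PT.id)
      (hB.mono (fun a => hsz a 0 (Nat.zero_le _)))
  refine h0.trans ?_
  obtain ⟨P, p, hP⟩ := hs
  refine ⟨whileP P, fun a => N a * (p.eval (B a) + 20) + 6,
    (hN.mul ((hB.eval p).add (PB.const 20))).add (PB.const 6), fun a => ?_⟩
  refine Comp.while (s := fun i => toT (step^[i] (start a))) (N := N a) ?_ ?_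
  · intro i hi f hf
    have e : f = go (step^[i + 1] (start a)) := by
      rcases Nat.lt_or_ge (i + 1) (N a) with h | h
      · rw [h1 a _ h, hf.2 h]
      · have e : i + 1 = N a := by omega
        rw [e, h2 a]
        cases f
        · rfl
        · have := hf.1 rfl; omega
    have := (hP (step^[i] (start a))).mono (eval_mono p (hsz a i hi.le))
    rw [e, Function.iterate_succ_apply']
    exact this
  · rcases Nat.eq_zero_or_pos (N a) with h | h
    · have := h2 a
      rw [h] at this
      simp only [Function.iterate_zero, _root_.id] at this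
      simp [this, h]
    · have := h1 a 0 h
      simp only [Function.iterate_zero, _root_.id] at this
      simp [this, h]

theorem size_replicate_unit (i : ℕ) : size (List.replicate i ()) = 2 * i + 1 := by
  induction i with
  | zero => rfl
  | succ i ih => rw [List.replicate_succ, size_cons, ih, size_unit]; omega

/-- write a binary number in unary -/
theorem RT.expand {m : α → ℕ} {x : α → β} (hm : PB s m) (hx : PB s fun a => size (x a)) :
    RT s (fun a => (m a, x a)) (fun a => (List.replicate (m a) (), x a)) := by
  have hsm : PB s fun a => size (m a) :=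
    (((PB.const 4).mul hm).add (PB.const 1)).mono (fun a => size_nat_le _)
  have hin : PB s fun a => size (m a, x a) :=
    ((hsm.add hx).add (PB.const 1)).mono (fun a => by simp)
  have h0 : RT s (fun a => (m a, x a)) (fun a => (m a, ([] : List Unit), x a)) :=
    RT.of_PT (f := fun p : ℕ × β => (p.1, ([] : List Unit), p.2)) (by fun_prop) hin
  have it : ∀ (c : ℕ) (b : β) (i : ℕ),
      (fun t : ℕ × List Unit × β => (t.1 - 1, () :: t.2.1, t.2.2))^[i] (c, [], b)
        = (c - i, List.replicate i (), b) := by
    intro c b i
    induction i with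
    | zero => rfl
    | succ i ih => rw [Function.iterate_succ_apply', ih]; simp [List.replicate_succ]; omega
  have h1 := RT.whileN (s := s) (σ := ℕ × List Unit × β)
    (step := fun t => (t.1 - 1, () :: t.2.1, t.2.2)) (go := fun t => t.1 != 0)
    (start := fun a => (m a, [], x a)) (by fun_prop) (by fun_prop) m
    (fun a => 6 * m a + size (x a) + 4)
    hm ((((PB.const 6).mul hm).add hx).add (PB.const 4))
    (fun a i hi => by rw [it]; simp; omega) (fun a => by rw [it]; simp)
    (fun a i hi => by
      rw [it]
      have := size_nat_le (m a - i)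
      simp only [size_pair, size_replicate_unit]
      omega)
  have h2 := h1.trans (RT.of_PT (f := fun t : ℕ × List Unit × β => t.2) (by fun_prop)
    (h1.size_le (h0.size_le hin)))
  exact (h0.trans h2).of_eq (fun a => by rw [it])

/-- the machine of a stack program -/
def progBTM (P : Prog) : BTM where
  tm := P.tm
  e₀ := Equiv.refl Bool
  e₁ := Equiv.refl Bool
  fin := fun _ => inferInstanceAs (Finite Bool)

theorem RT.exists_btm {x y : α → List Bool} (h : RT s x y) (hx : PB s fun a => (x a).length) :
    ∃ (M : BTM) (t : α → ℕ), PB s t ∧ PB s (fun a => (y a).length) ∧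
      ∀ a, M.Out (x a) (y a) (t a) := by
  have hx' : PB s fun a => size (x a) :=
    (((PB.const 4).mul hx).add (PB.const 1)).mono (fun a => size_bits_le _)
  have hy : PB s fun a => (y a).length := (h.size_le hx').mono (fun a => (length_lt_size _).le)
  obtain ⟨P, n, hn, h⟩ := h
  refine ⟨progBTM (.seq inP (.seq P outP)),
    fun a => (7 * (x a).length + 3) + (n a + (9 * (y a).length + 4)),
    (((PB.const 7).mul hx).add (PB.const 3)).add
      (hn.add (((PB.const 9).mul hy).add (PB.const 4))), hy, fun a => ?_⟩
  have h2 := h a []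
  simp only [List.append_nil] at h2
  have h3 := Run.outputs (Run.seq (run_in (x a)) (Run.seq h2 (run_outP (y a))))
  have e : ∀ l : List Bool, l.map (Equiv.refl Bool).symm = l := fun l => List.map_id l
  unfold BTM.Out
  exact (e (x a)).symm ▸ (e (y a)).symm ▸ h3

end Pool.Agent.Lib.Helper33
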