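import Mathlib
import Pool.Agent.Lib.Helper47.PTMore
import Pool.Agent.P.MP_ba7db8_lc.Tableau2
import Pool.Agent.P.MP_ba7db8_lc.PTP

/-!
Every function computed by a polynomial-time `FinTM2` is `PT` (simulation of the machine).
-/

namespace Pool.Agent.Lib.Helper33.Sim

open Pool.Agent.Lib.Helper47 Pool.Agent.P.MP_ba7db8_lc Turing Turing.TM2

section

variable {K : Type} [DecidableEq K] {Γ : K → Type} {Λ σ : Type} (A : Set (Σ k, Γ k))

open Classical in
/-- code of a symbol -/
noncomputable def enc (x : Σ k, Γ k) : Option A := if h : x ∈ A then some ⟨x, h⟩ else none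

/-- decoding of a symbol of stack `k` -/
def dec (k : K) (s : A) : Option (Γ k) := if h : s.1.1 = k then some (h ▸ s.1.2) else none

/-- the stacks described by a list of tagged symbols -/
def stk (L : List A) (k : K) : List (Γ k) := L.filterMap (dec A k)

/-- the tag test -/
def tg (k : K) (s : A) : Bool := decide (s.1.1 = k)

/-- simulation of a statement -/
noncomputable def sim : Stmt Γ Λ σ → σ → List A → Option Λ × σ × List A
  | Stmt.push k f q, v, L => sim q v ((enc A ⟨k, f v⟩).toList ++ L)
  | Stmt.peek k f q, v, L => sim q (f v ((L.find? (tg A k)).bind (dec A k))) L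
  | Stmt.pop k f q, v, L => sim q (f v ((L.find? (tg A k)).bind (dec A k))) (L.eraseP (tg A k))
  | Stmt.load a q, v, L => sim q (a v) L
  | Stmt.branch f q₁ q₂, v, L => cond (f v) (sim q₁ v L) (sim q₂ v L)
  | Stmt.goto f, v, L => (some (f v), v, L)
  | Stmt.halt, v, L => (none, v, L)

theorem dec_self (k : K) (a : Γ k) (h : (⟨k, a⟩ : Σ k, Γ k) ∈ A) : dec A k ⟨⟨k, a⟩, h⟩ = some a := by
  simp [dec]

theorem dec_ne {k : K} {s : A} (h : s.1.1 ≠ k) : dec A k s = none := by simp [dec, h]

theorem dec_isSome {k : K} {s : A} (h : s.1.1 = k) : ∃ a, dec A k s = some a := by simp [dec, h]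

theorem head_stk (L : List A) (k : K) :
    (stk A L k).head? = (L.find? (tg A k)).bind (dec A k) := by
  induction L with
  | nil => rfl
  | cons s L ih =>
    by_cases h : s.1.1 = k
    · obtain ⟨a, ha⟩ := dec_isSome A h
      simp [stk, tg, h, ha]
    · simpa [stk, tg, h, dec_ne A h] using ih

theorem stk_eraseP (L : List A) (k : K) :
    stk A (L.eraseP (tg A k)) = Function.update (stk A L) k (stk A L k).tail := by
  funext k'
  induction L with
  | nil => by_cases hk : k' = k
           · subst hk; simp [stk]
           · simp [stk, Function.update_of_ne hk]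
  | cons s L ih =>
    by_cases hk : k' = k
    · subst hk
      rw [Function.update_self] at ih ⊢
      by_cases h : s.1.1 = k'
      · obtain ⟨a, ha⟩ := dec_isSome A h
        simp [stk, tg, h, ha]
      · simpa [stk, tg, h, dec_ne A h] using ih
    · rw [Function.update_of_ne hk] at ih ⊢
      by_cases h : s.1.1 = k
      · have : dec A k' s = none := dec_ne A fun h' => hk (h'.symm.trans h)
        simp [stk, tg, h, this]
      · simp only [stk] at ih
        simp [stk, tg, h, List.filterMap_cons, ih]

theorem stk_push (L : List A) {k : K} {a : Γ k} (h : (⟨k, a⟩ : Σ k, Γ k) ∈ A) :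
    stk A ((enc A ⟨k, a⟩).toList ++ L) = Function.update (stk A L) k (a :: stk A L k) := by
  funext k'
  by_cases hk : k' = k
  · subst hk
    simp [stk, enc, h, dec_self]
  · rw [Function.update_of_ne hk]
    have : dec A k' ⟨⟨k, a⟩, h⟩ = none := dec_ne A (Ne.symm hk)
    simp [stk, enc, h, this]

theorem sim_spec (q : Stmt Γ Λ σ) (hq : pushSet q ⊆ A) (v : σ) (L : List A) :
    stepAux q v (stk A L) = ⟨(sim A q v L).1, (sim A q v L).2.1, stk A (sim A q v L).2.2⟩ := by
  induction q generalizing v L with
  | push k f q ih =>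
    simp only [stepAux, sim]
    rw [← ih (Set.union_subset_iff.1 hq).2, stk_push A L (hq (Or.inl ⟨v, rfl⟩))]
  | peek k f q ih => simp only [stepAux, sim, ← ih hq, head_stk]
  | pop k f q ih => simp only [stepAux, sim, ← ih hq, head_stk, stk_eraseP]
  | load a q ih => exact ih hq _ _
  | branch f q₁ q₂ ih₁ ih₂ =>
    simp only [stepAux, sim]
    cases f v
    · exact ih₂ (Set.union_subset_iff.1 hq).2 _ _
    · exact ih₁ (Set.union_subset_iff.1 hq).1 _ _
  | goto f => rfl
  | halt => rfl

theorem length_sim (q : Stmt Γ Λ σ) (v : σ) (L : List A) :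
    (sim A q v L).2.2.length ≤ L.length + depth q := by
  induction q generalizing v L with
  | push k f q ih =>
    simp only [sim, depth]
    refine (ih _ _).trans ?_
    have : (enc A ⟨k, f v⟩).toList.length ≤ 1 := by cases enc A ⟨k, f v⟩ <;> simp
    rw [List.length_append]
    omega
  | peek k f q ih => exact (ih _ _).trans (by simp only [depth]; omega)
  | pop k f q ih =>
    refine (ih _ _).trans ?_
    have := (List.eraseP_sublist (p := tg A k) (l := L)).length_le
    simp only [depth]
    omega
  | load a q ih => exact ih _ _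
  | branch f q₁ q₂ ih₁ ih₂ =>
    simp only [sim, depth]
    cases f v
    · exact (ih₂ _ _).trans (by omega)
    · exact (ih₁ _ _).trans (by omega)
  | goto f => simp [sim]
  | halt => simp [sim]

theorem eraseP_eq {β : Type} (p : β → Bool) (l : List β) :
    l.eraseP p = l.takeWhile (fun x => !p x) ++ (l.dropWhile fun x => !p x).tail := by
  induction l with
  | nil => rfl
  | cons x l ih => cases h : p x <;> simp [h, ih]

theorem pt_sim [Finite σ] [Finite A] [Enc Λ] [Enc σ] [Enc A] (q : Stmt Γ Λ σ) :
    PT fun p : σ × List A => sim A q p.1 p.2 := by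
  have htg : ∀ k, PT (tg A k) := fun k => PT.of_finite _
  induction q with
  | push k f q ih =>
    have h : PT fun v : σ => (enc A ⟨k, f v⟩).toList := PT.of_finite _
    exact ih.comp (g := fun p : σ × List A => (p.1, (enc A ⟨k, f p.1⟩).toList ++ p.2))
      (PT.prodMk (by fun_prop) (PT.append (h.comp (by fun_prop)) (by fun_prop)))
  | peek k f q ih =>
    have h : PT fun y : σ × Option A => f y.1 (y.2.bind (dec A k)) := PT.of_finite _
    have := htg k
    exact ih.comp (g := fun p : σ × List A => (f p.1 ((p.2.find? (tg A k)).bind (dec A k)), p.2))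
      (PT.prodMk (h.comp (g := fun p : σ × List A => (p.1, p.2.find? (tg A k))) (by fun_prop))
        (by fun_prop))
  | pop k f q ih =>
    have h : PT fun y : σ × Option A => f y.1 (y.2.bind (dec A k)) := PT.of_finite _
    have := htg k
    refine ih.comp (g := fun p : σ × List A =>
      (f p.1 ((p.2.find? (tg A k)).bind (dec A k)), p.2.eraseP (tg A k)))
      (PT.prodMk (h.comp (g := fun p : σ × List A => (p.1, p.2.find? (tg A k))) (by fun_prop)) ?_)
    simp only [eraseP_eq]
    fun_prop
  | load a q ih =>
    have h : PT a := PT.of_finite _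
    exact ih.comp (g := fun p : σ × List A => (a p.1, p.2)) (by fun_prop)
  | branch f q₁ q₂ ih₁ ih₂ =>
    have h : PT f := PT.of_finite _
    exact PT.cond (by fun_prop) ih₁ ih₂
  | goto f =>
    have h : PT f := PT.of_finite _
    simp only [sim]
    fun_prop
  | halt =>
    simp only [sim]
    fun_prop

/-- simulation of one step -/
noncomputable def stepS (M : Λ → Stmt Γ Λ σ) (c : Option Λ × σ × List A) : Option Λ × σ × List A :=
  c.1.elim c fun l => sim A (M l) c.2.1 c.2.2

/-- the configuration described by a state of the simulation -/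
def cfg (c : Option Λ × σ × List A) : Cfg Γ Λ σ := ⟨c.1, c.2.1, stk A c.2.2⟩

theorem cfg_stepS (M : Λ → Stmt Γ Λ σ) (hM : ∀ l, pushSet (M l) ⊆ A) (c : Option Λ × σ × List A) :
    cfg A (stepS A M c) = run M (cfg A c) := by
  obtain ⟨_ | l, v, L⟩ := c
  · rfl
  · exact (sim_spec A (M l) (hM l) v L).symm

end

theorem pt_cases {ι α β : Type} [Finite ι] [Enc ι] [Enc α] [Enc β] {g : ι → α → β}
    (h : ∀ i, PT (g i)) (d : α → β) (hd : PT d) : PT fun p : ι × α => g p.1 p.2 := by
  classical
  have := Fintype.ofFinite ι
  have key : ∀ l : List ι, PT fun p : ι × α => if p.1 ∈ l then g p.1 p.2 else d p.2 := by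
    intro l
    induction l with
    | nil => exact (hd.comp (g := fun p : ι × α => p.2) (by fun_prop)).of_eq fun p => by simp
    | cons i l ih =>
      refine (PT.ite (PT.decEq (f := fun p : ι × α => p.1) (by fun_prop) (PT.const i))
        ((h i).comp (g := fun p : ι × α => p.2) (by fun_prop)) ih).of_eq fun p => ?_
      by_cases hp : p.1 = i <;> simp [hp]
  exact (key Finset.univ.toList).of_eq fun p => by simp

theorem exists_size_le (β : Type) [Finite β] [Enc β] : ∃ C, ∀ b : β, size b ≤ C := by
  obtain ⟨C, hC⟩ := (Set.finite_range (size : β → ℕ)).bddAbove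
  exact ⟨C, fun b => hC ⟨b, rfl⟩⟩

/-- A polynomial-time machine over Boolean input and output is simulated by a `PT` function. -/
theorem exists_pt {α β : Type} {ea : α → List Bool} {eb : β → List Bool} {f : α → β}
    (h : TM2ComputableInPolyTime ea eb f) :
    ∃ F : List Bool → List Bool, PT F ∧ ∀ a, F (ea a) = eb (f a) := by
  classical
  have := h.tm.kFin
  have := h.tm.ΛFin
  have := h.tm.σFin
  have := h.tm.Γk₀Fin
  let A : Set (Σ k, h.tm.Γ k) := (⋃ l, pushSet (h.tm.m l)) ∪
    Set.range fun a : h.tm.Γ h.tm.k₀ => (⟨h.tm.k₀, a⟩ : Σ k, h.tm.Γ k)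
  have hA : Finite A :=
    ((Set.finite_iUnion fun l => pushSet_finite _).union (Set.finite_range _)).to_subtype
  have hM : ∀ l, pushSet (h.tm.m l) ⊆ A := fun l =>
    (Set.subset_iUnion (fun l => pushSet (h.tm.m l)) l).trans Set.subset_union_left
  let _ : Enc h.tm.Λ := Enc.ofFinite _
  let _ : Enc h.tm.σ := Enc.ofFinite _
  let _ : Enc A := Enc.ofFinite _
  let c := Finset.univ.sup fun l => depth (h.tm.m l)
  have hc : ∀ l, depth (h.tm.m l) ≤ c := fun l =>
    Finset.le_sup (f := fun l => depth (h.tm.m l)) (Finset.mem_univ l)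
  let ι : Bool → A := fun b => ⟨⟨h.tm.k₀, h.inputAlphabet.symm b⟩, Or.inr ⟨_, rfl⟩⟩
  let s₀ : List Bool → Option h.tm.Λ × h.tm.σ × List A := fun x =>
    (some h.tm.main, h.tm.initialState, x.map ι)
  have hι : PT ι := PT.of_finite _
  have hs₀ : PT s₀ := by fun_prop
  have hstep : PT (stepS A h.tm.m) := by
    have h1 := pt_cases (g := fun l (p : h.tm.σ × List A) => sim A (h.tm.m l) p.1 p.2)
      (fun l => pt_sim A _) (fun p => (none, p)) (by fun_prop)
    exact PT.optElim (o := fun c : Option h.tm.Λ × h.tm.σ × List A => c.1) (n := fun c => c)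
      (c := fun c l => sim A (h.tm.m l) c.2.1 c.2.2) (by fun_prop) (by fun_prop)
      (h1.comp (g := fun y : (Option h.tm.Λ × h.tm.σ × List A) × h.tm.Λ => (y.2, y.1.2))
        (by fun_prop))
  have hlen : ∀ x i, ((stepS A h.tm.m)^[i] (s₀ x)).2.2.length ≤ x.length + i * c := by
    intro x i
    induction i with
    | zero => simp [s₀]
    | succ i ih =>
      rw [Function.iterate_succ_apply']
      generalize (stepS A h.tm.m)^[i] (s₀ x) = t at ih
      obtain ⟨_ | l, v, L⟩ := t
      · exact ih.trans (by rw [Nat.add_mul]; omega)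
      · have := length_sim A (h.tm.m l) v L
        have := hc l
        simp only [stepS, Option.elim] at *
        rw [Nat.add_mul]
        omega
  obtain ⟨C₁, hC₁⟩ := exists_size_le (Option h.tm.Λ)
  obtain ⟨C₂, hC₂⟩ := exists_size_le h.tm.σ
  obtain ⟨C₃, hC₃⟩ := exists_size_le A
  have hT : PT fun x : List Bool => h.time.eval x.length := pt_eval _ (PT.length PT.id)
  have hT' : PS fun x : List Bool => h.time.eval x.length := (ps_length PT.id).eval _
  have hit := PT.iterate (f := fun _ : List Bool => stepS A h.tm.m)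
    (hstep.comp (g := fun p : List Bool × _ => p.2) (by fun_prop)) (PT.range hT hT') hs₀
    (fun x => C₁ + C₂ + 2 + ((x.length + h.time.eval x.length * c) * (C₃ + 1) + 1))
    ((PB.const _).add ((((ps_length PT.id).add (hT'.mul (PB.const c))).mul (PB.const _)).add
      (PB.const 1))) (fun x i hi => by
      have h1 := hlen x i
      generalize (stepS A h.tm.m)^[i] (s₀ x) = t at h1
      rw [List.length_range] at hi
      have h2 := size_list_le (l := t.2.2) fun y _ => hC₃ y
      have h3 : t.2.2.length * (C₃ + 1) ≤ (x.length + h.time.eval x.length * c) * (C₃ + 1) :=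
        Nat.mul_le_mul_right _ (h1.trans (Nat.add_le_add_left (Nat.mul_le_mul_right _ hi) _))
      have := hC₁ t.1
      have := hC₂ t.2.1
      rw [size_prod, size_prod]
      omega)
  have ho : PT fun s : A => (dec A h.tm.k₁ s).map h.outputAlphabet := PT.of_finite _
  refine ⟨fun x => ((stepS A h.tm.m)^[(List.range (h.time.eval x.length)).length]
    (s₀ x)).2.2.filterMap fun s => (dec A h.tm.k₁ s).map h.outputAlphabet,
    PT.filterMap (g := fun _ s => (dec A h.tm.k₁ s).map h.outputAlphabet)
      (ho.comp (g := fun p : List Bool × A => p.2) (by fun_prop)) (PT.snd (PT.snd hit)),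
    fun a => ?_⟩
  have hcfg : ∀ x i, cfg A ((stepS A h.tm.m)^[i] (s₀ x)) =
      (run h.tm.m)^[i] (initList h.tm (x.map h.inputAlphabet.symm)) := by
    intro x i
    induction i with
    | zero =>
      change (⟨_, _, _⟩ : Cfg _ _ _) = ⟨_, _, _⟩
      congr 1
      funext k
      change stk A (x.map ι) k = (initList h.tm (x.map h.inputAlphabet.symm)).stk k
      by_cases hk : k = h.tm.k₀
      · subst hk
        rw [initList_stk_self]
        simp [stk, List.filterMap_map, ι, dec_self]
      · rw [initList_stk_ne _ _ hk]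
        simp only [stk, List.filterMap_map, List.filterMap_eq_nil_iff]
        exact fun b _ => dec_ne A (Ne.symm hk)
    | succ i ih => rw [Function.iterate_succ_apply', Function.iterate_succ_apply', cfg_stepS A _ hM, ih]
  have e := h.outputsFun a
  have e1 := iterate_run_of_evals h.tm.m e.steps _ _ e.evals_in_steps
  obtain ⟨r, hr⟩ := Nat.exists_eq_add_of_le' e.steps_le_m
  have e3 : (run h.tm.m)^[e.steps] (initList h.tm ((ea a).map h.inputAlphabet.symm)) =
      haltList h.tm ((eb (f a)).map h.outputAlphabet.symm) := e1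
  have e4 := congrArg (fun c => c.stk h.tm.k₁) (hcfg (ea a) (h.time.eval (ea a).length))
  rw [hr, Function.iterate_add_apply (run h.tm.m), e3, iterate_run_of_halt _ rfl, ← hr] at e4
  simp only [haltList_stk_self, cfg, stk] at e4
  simp only [List.length_range]
  rw [← List.map_filterMap, e4]
  simp

/-- string functions -/
theorem pt_of_tm {f : List Bool → List Bool} (h : TM2ComputableInPolyTime id id f) : PT f :=
  let ⟨_, hF, h1⟩ := exists_pt h
  hF.of_eq h1

/-- Boolean functions -/
theorem pt_of_tm_bool {f : List Bool → Bool}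
    (h : TM2ComputableInPolyTime id Computability.encodeBool f) : PT f := by
  obtain ⟨F, hF, h1⟩ := exists_pt h
  exact (PT.headD hF (PT.const false)).of_eq fun a => by
    rw [show F a = [f a] from h1 a]
    rfl

end Pool.Agent.Lib.Helper33.Sim
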